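import Pool.Agent.H85.AU.Targets

/-!
Module CLC of the board au_modules: compactness for isomorphism classes.
-/

open CategoryTheory CategoryTheory.Limits TopologicalSpace Topology Set
open Pool.Agent.H85.AU

universe w

namespace Pool.Agent.H4.AU

section

variable {X : Type} [TopologicalSpace X] {C : Type 1} [Category.{0} C] [Abelian C]

theorem finCl_mono (c : CutSys X C) (𝒮 : C → Prop) {U V : Opens X} (h : U ≤ V)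
    (hV : c.FinCl 𝒮 V) : c.FinCl 𝒮 U := by
  obtain ⟨T, hT, hP, hR⟩ := hV
  refine ⟨T, hT, hP, fun A hA => ?_⟩
  obtain ⟨P, hPT, ⟨e⟩⟩ := hR A hA
  exact ⟨P, hPT, ⟨c.rsi h e⟩⟩

theorem finCl_bot (c : CutSys X C) (𝒮 : C → Prop) : c.FinCl 𝒮 ⊥ := by
  by_cases h : ∃ A, 𝒮 A
  · obtain ⟨A₀, hA₀⟩ := h
    refine ⟨{A₀}, Set.finite_singleton _, ?_, fun A _ => ⟨A₀, rfl, ⟨?_⟩⟩⟩
    · rintro P rfl
      exact hA₀
    · exact (c.bot A).iso (c.bot A₀)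
  · exact ⟨∅, Set.finite_empty, fun P hP => absurd hP (Set.notMem_empty P),
      fun A hA => absurd ⟨A, hA⟩ h⟩

theorem inter_pairs [HasExt.{w} C] (c : CutSys X C) (K : Set X) (W : Opens X) (hK : K ⊆ W)
    (S : Set (C × C)) (hS : S.Finite)
    (h : ∀ p ∈ S, ∃ V : Opens X, K ⊆ V ∧ ∃ hV : V ≤ W,
      (range (CutSys.rs.{w} c p.1 p.2 0 hV)).Finite) :
    ∃ V : Opens X, K ⊆ V ∧ ∃ hV : V ≤ W, ∀ p ∈ S,
      (range (CutSys.rs.{w} c p.1 p.2 0 hV)).Finite := by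
  induction S, hS using Set.Finite.induction_on with
  | empty => exact ⟨W, hK, le_refl W, fun p hp => absurd hp (Set.notMem_empty p)⟩
  | @insert p S _ _ ih =>
    obtain ⟨V, hKV, hV, hfin⟩ := ih fun q hq => h q (Set.mem_insert_of_mem _ hq)
    obtain ⟨V', hKV', hV', hfin'⟩ := h p (Set.mem_insert _ _)
    refine ⟨V ⊓ V', fun x hx => ⟨hKV hx, hKV' hx⟩, inf_le_left.trans hV, ?_⟩
    intro q hq
    rcases Set.mem_insert_iff.1 hq with rfl | hq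
    · exact c.rs_finite_mono _ _ 0 (inf_le_right : V ⊓ V' ≤ V') hV' (le_refl W) hfin'
    · exact c.rs_finite_mono _ _ 0 (inf_le_left : V ⊓ V' ≤ V) hV (le_refl W) (hfin q hq)

end

theorem pf_CLC : T_CLU.{w} → T_WIL.{w} → T_CLC.{w} := by
  intro hCLU hWIL X _ _ _ C _ _ _ c 𝒮 O hgood hloc K hK hKO
  suffices h : ∃ K₁ : Set X, IsCompact K₁ ∧ K ⊆ K₁ ∧ K₁ ⊆ O ∧ ∃ U : Opens X, K₁ ⊆ U ∧ U ≤ O ∧
      c.FinCl 𝒮 U by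
    obtain ⟨K₁, -, h1, -, U, h2, h3, h4⟩ := h
    exact ⟨U, h1.trans h2, h3, h4⟩
  refine hK.induction_on (p := fun S => ∃ K₁ : Set X, IsCompact K₁ ∧ S ⊆ K₁ ∧ K₁ ⊆ O ∧
    ∃ U : Opens X, K₁ ⊆ U ∧ U ≤ O ∧ c.FinCl 𝒮 U) ?_ ?_ ?_ ?_
  · exact ⟨∅, isCompact_empty, subset_rfl, Set.empty_subset _, ⊥, Set.empty_subset _, bot_le,
      finCl_bot c 𝒮⟩
  · rintro s t hst ⟨K₁, h0, h1, h2⟩
    exact ⟨K₁, h0, hst.trans h1, h2⟩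
  · rintro s t ⟨K₁, hc₁, hs, hO₁, U₁, hU₁, hUO₁, T₁, hT₁, hP₁, hR₁⟩
      ⟨K₂, hc₂, ht, hO₂, U₂, hU₂, hUO₂, T₂, hT₂, hP₂, hR₂⟩
    refine ⟨K₁ ∪ K₂, hc₁.union hc₂, Set.union_subset_union hs ht, Set.union_subset hO₁ hO₂, ?_⟩
    obtain ⟨V, hKV, hV, hfin⟩ := inter_pairs.{w} c (K₁ ∩ K₂) (U₁ ⊓ U₂)
      (fun x hx => ⟨hU₁ hx.1, hU₂ hx.2⟩) (T₁ ×ˢ T₂) (hT₁.prod hT₂) (by
        rintro ⟨P, Q⟩ ⟨hP, hQ⟩
        exact hWIL X C c P Q (U₁ ⊓ U₂)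
          (fun x hx => hgood P Q (hP₁ P hP) (hP₂ Q hQ) x (hUO₁ hx.1)) (K₁ ∩ K₂)
          (hc₁.inter hc₂) (fun x hx => ⟨hU₁ hx.1, hU₂ hx.2⟩) 0)
    obtain ⟨W₁, W₂, g1, g2, g3, g4, g5⟩ := exists_shrink hc₁.isClosed hc₂.isClosed U₁ U₂ V
      hU₁ hU₂ hKV
    refine ⟨W₁ ⊔ W₂, ?_, sup_le (g3.trans hUO₁) (g4.trans hUO₂), ?_⟩
    · rintro x (hx | hx)
      · exact Or.inl (g1 hx)
      · exact Or.inr (g2 hx)
    · exact hCLU X C c 𝒮 T₁ T₂ hT₁ hT₂ U₁ U₂ V W₁ W₂ hV g3 g4 g5 hR₁ hR₂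
        (fun P hP Q hQ => hfin (P, Q) ⟨hP, hQ⟩)
  · intro x hx
    obtain ⟨U₀, hx₀, hU₀⟩ := hloc x (hKO hx)
    obtain ⟨K', hc', hxK', hK'⟩ := exists_compact_subset (U₀ ⊓ O).isOpen
      (show x ∈ ((U₀ ⊓ O : Opens X) : Set X) from ⟨hx₀, hKO hx⟩)
    refine ⟨K', mem_nhdsWithin_of_mem_nhds (mem_interior_iff_mem_nhds.1 hxK'), K', hc',
      subset_rfl, fun y hy => (hK' hy).2, U₀ ⊓ O, hK', inf_le_right,
      finCl_mono c 𝒮 inf_le_left hU₀⟩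

end Pool.Agent.H4.AU
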