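import Pool.Agent.H85.AU.Targets

/-!
Module CLD of the board au_modules: finitely many complexes up to isomorphism.
-/

open CategoryTheory CategoryTheory.Limits Pretriangulated
open Pool.Agent.H85.AU

universe w v u

namespace Pool.Agent.H4.AU

/-- a class of objects described by a finite datum up to isomorphism -/
theorem finIso_of_data' {C : Type u} [Category.{v} C] (𝒮 : C → Prop) (D : Type*) [Finite D]
    (R : C → D → Prop) (hR : ∀ E, 𝒮 E → ∃ d, R E d)
    (hinj : ∀ E E' d, 𝒮 E → 𝒮 E' → R E d → R E' d → Nonempty (E ≅ E')) : FinIso 𝒮 := by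
  classical
  refine ⟨Set.range (fun d : {d : D // ∃ E, 𝒮 E ∧ R E d} => d.2.choose), Set.finite_range _,
    ?_, ?_⟩
  · rintro _ ⟨d, rfl⟩
    exact d.2.choose_spec.1
  · intro A hA
    obtain ⟨d, hd⟩ := hR A hA
    have h : ∃ E, 𝒮 E ∧ R E d := ⟨A, hA, hd⟩
    exact ⟨h.choose, ⟨⟨d, h⟩, rfl⟩, hinj A _ d hA h.choose_spec.1 hd h.choose_spec.2⟩

theorem pf_CLD : T_TRI → T_HOM.{w} → T_CLD.{w} := by
  intro hTRI hHOM C _ _ _ _ P hPiso hPzero hPfin hP a n
  induction n with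
  | zero =>
    refine finIso_of_data' _ Unit (fun _ _ => True) (fun _ _ => ⟨(), trivial⟩) ?_
    rintro K K' - ⟨-, h1, h2⟩ ⟨-, h1', h2'⟩ - -
    have key : ∀ L : DerivedCategory C,
        (∀ i, i < a → IsZero ((DerivedCategory.homologyFunctor C i).obj L)) →
        (∀ i, a + (0 : ℕ) ≤ i → IsZero ((DerivedCategory.homologyFunctor C i).obj L)) →
        IsZero L := by
      intro L g1 g2
      have l1 : L.IsGE a := (DerivedCategory.isGE_iff L a).2 g1
      have l2 : L.IsLE (a - 1) := (DerivedCategory.isLE_iff L (a - 1)).2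
        fun i hi => g2 i (by push_cast; lia)
      exact DerivedCategory.TStructure.t.isZero L (a - 1) a (by lia)
    exact ⟨(key K h1 h2).iso (key K' h1' h2')⟩
  | succ n ih =>
    obtain ⟨T, hT, hTP, hTR⟩ := ih
    obtain ⟨T', hT', hTP', hTR'⟩ := hP
    have := hT.to_subtype
    have := hT'.to_subtype
    have : ∀ (L : T) (G : T'), Finite ((DerivedCategory.singleFunctor C (a + n)).obj (G : C) ⟶
        (L : DerivedCategory C)⟦(1 : ℤ)⟧) := fun L G =>
      hHOM C P hPiso hPzero hPfin _ (hTP' _ G.2) (a + n) a n L (hTP _ L.2).1 (hTP _ L.2).2.1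
        (hTP _ L.2).2.2 1
    refine finIso_of_data' _ (Σ (L : T) (G : T'),
      ((DerivedCategory.singleFunctor C (a + n)).obj (G : C) ⟶
        (L : DerivedCategory C)⟦(1 : ℤ)⟧))
      (fun K d => ∃ (f : (d.1 : DerivedCategory C) ⟶ K)
        (g : K ⟶ (DerivedCategory.singleFunctor C (a + n)).obj (d.2.1 : C)),
        Triangle.mk f g d.2.2 ∈ distTriang (DerivedCategory C)) ?_ ?_
    · rintro K ⟨k1, k2, k3⟩
      obtain ⟨L, G, f, g, h, mem, ⟨eG⟩, hL1, hL2⟩ := hTRI C K (a + n)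
        (fun i hi => k3 i (by push_cast; lia))
      obtain ⟨L₀, hL₀, ⟨e⟩⟩ := hTR L ⟨fun i => by
          rcases lt_or_ge i (a + n) with hi | hi
          · obtain ⟨e⟩ := hL1 i hi
            exact hPiso _ _ ⟨e.symm⟩ (k1 i)
          · exact hPzero _ (hL2 i hi), fun i hi => by
          obtain ⟨e⟩ := hL1 i (by lia)
          exact (k2 i hi).of_iso e, hL2⟩
      obtain ⟨G₀, hG₀, ⟨ε⟩⟩ := hTR' G (hPiso _ _ ⟨eG.symm⟩ (k1 _))
      let S := DerivedCategory.singleFunctor C (a + n)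
      refine ⟨⟨⟨L₀, hL₀⟩, ⟨G₀, hG₀⟩, S.map ε.inv ≫ h ≫ e.hom⟦(1 : ℤ)⟧'⟩, e.inv ≫ f,
        g ≫ S.map ε.hom, ?_⟩
      refine isomorphic_distinguished _ mem _
        (Triangle.isoMk _ _ e.symm (Iso.refl K) (S.mapIso ε.symm) ?_ ?_ ?_)
      · show (e.inv ≫ f) ≫ 𝟙 K = e.inv ≫ f
        rw [Category.comp_id]
      · show (g ≫ S.map ε.hom) ≫ S.map ε.inv = 𝟙 K ≫ g
        rw [Category.assoc, ← Functor.map_comp, ε.hom_inv_id, CategoryTheory.Functor.map_id,
          Category.comp_id, Category.id_comp]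
      · show (S.map ε.inv ≫ h ≫ e.hom⟦(1 : ℤ)⟧') ≫ e.inv⟦(1 : ℤ)⟧' = S.map ε.inv ≫ h
        rw [Category.assoc, Category.assoc, ← Functor.map_comp, e.hom_inv_id,
          CategoryTheory.Functor.map_id, Category.comp_id]
    · rintro K K' ⟨L, G, x⟩ - - ⟨f, g, mem⟩ ⟨f', g', mem'⟩
      let E := isoTriangleOfIso₁₃ (Triangle.mk f g x) (Triangle.mk f' g' x) mem mem'
        (Iso.refl _) (Iso.refl _) (by
          show x ≫ (𝟙 (L : DerivedCategory C))⟦(1 : ℤ)⟧' = 𝟙 _ ≫ x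
          rw [CategoryTheory.Functor.map_id, Category.comp_id, Category.id_comp])
      exact ⟨Triangle.π₂.mapIso E⟩

end Pool.Agent.H4.AU
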