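import Pool.Agent.H85.AU.Targets

/-!
Module TRI of the board au_modules: the top cohomology object.
-/

open CategoryTheory CategoryTheory.Limits Pretriangulated
open Pool.Agent.H85.AU

universe w

namespace Pool.Agent.H4.AU

variable {C : Type 1} [Category.{0} C] [Abelian C] [HasDerivedCategory.{1} C]

/-- the homology of a single object -/
noncomputable def homSingle (b : ℤ) (G : C) :
    (DerivedCategory.homologyFunctor C b).obj ((DerivedCategory.singleFunctor C b).obj G) ≅ G :=
  (DerivedCategory.homologyFunctor C b).mapIso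
      ((DerivedCategory.singleFunctorIsoCompQ C b).app G) ≪≫
    (DerivedCategory.homologyFunctorFactors C b).app _ ≪≫
    (HomologicalComplex.homologyFunctorSingleIso C (ComplexShape.up ℤ) b).app G

/-- `H^i(f)` is an isomorphism if `H^(i-1)(Z) = H^i(Z) = 0` -/
theorem isIso_mor₁ (T : Triangle (DerivedCategory C)) (hT : T ∈ distTriang _) (i : ℤ)
    (h1 : IsZero ((DerivedCategory.homologyFunctor C (i - 1)).obj T.obj₃))
    (h2 : IsZero ((DerivedCategory.homologyFunctor C i).obj T.obj₃)) :
    IsIso ((DerivedCategory.homologyFunctor C i).map T.mor₁) := by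
  have hm : Mono ((DerivedCategory.homologyFunctor C i).map T.mor₁) := by
    rw [DerivedCategory.HomologySequence.mono_homologyMap_mor₁_iff T hT (i - 1) i (by lia)]
    exact h1.eq_of_src _ _
  have he : Epi ((DerivedCategory.homologyFunctor C i).map T.mor₁) := by
    rw [DerivedCategory.HomologySequence.epi_homologyMap_mor₁_iff T hT i]
    exact h2.eq_of_tgt _ _
  exact isIso_of_mono_of_epi _

/-- `H^i(g)` is an isomorphism if `H^i(X) = H^(i+1)(X) = 0` -/
theorem isIso_mor₂ (T : Triangle (DerivedCategory C)) (hT : T ∈ distTriang _) (i : ℤ)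
    (h1 : IsZero ((DerivedCategory.homologyFunctor C i).obj T.obj₁))
    (h2 : IsZero ((DerivedCategory.homologyFunctor C (i + 1)).obj T.obj₁)) :
    IsIso ((DerivedCategory.homologyFunctor C i).map T.mor₂) := by
  have hm : Mono ((DerivedCategory.homologyFunctor C i).map T.mor₂) := by
    rw [DerivedCategory.HomologySequence.mono_homologyMap_mor₂_iff T hT i]
    exact h1.eq_of_src _ _
  have he : Epi ((DerivedCategory.homologyFunctor C i).map T.mor₂) := by
    rw [DerivedCategory.HomologySequence.epi_homologyMap_mor₂_iff T hT i (i + 1) (by lia)]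
    exact h2.eq_of_tgt _ _
  exact isIso_of_mono_of_epi _

theorem pf_TRI : T_TRI := by
  intro C _ _ _ K b hK
  obtain ⟨L, Y, hL, hY, f, g, h, mem⟩ :=
    (DerivedCategory.TStructure.t (C := C)).exists_triangle K (b - 1) b (by lia)
  have hL' : L.IsLE (b - 1) := ⟨hL⟩
  have hY' : Y.IsGE b := ⟨hY⟩
  have hLz : ∀ i, b ≤ i → IsZero ((DerivedCategory.homologyFunctor C i).obj L) :=
    fun i hi => L.isZero_of_isLE (b - 1) i (by lia)
  have hYz : ∀ i, i < b → IsZero ((DerivedCategory.homologyFunctor C i).obj Y) :=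
    fun i hi => Y.isZero_of_isGE b i hi
  have hYLE : Y.IsLE b := by
    rw [DerivedCategory.isLE_iff]
    intro i hi
    have : IsIso ((DerivedCategory.homologyFunctor C i).map g) :=
      isIso_mor₂ _ mem i (hLz i hi.le) (hLz (i + 1) (by lia))
    exact (hK i hi).of_iso (asIso ((DerivedCategory.homologyFunctor C i).map g)).symm
  obtain ⟨G, ⟨e⟩⟩ := Y.exists_iso_singleFunctor_obj_of_isGE_of_isLE b
  have mem' : Triangle.mk f (g ≫ e.hom) (e.inv ≫ h) ∈ distTriang (DerivedCategory C) :=
    isomorphic_distinguished _ mem _ (Triangle.isoMk _ _ (Iso.refl L) (Iso.refl K) e.symm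
      (by show f ≫ 𝟙 K = 𝟙 L ≫ f; rw [Category.comp_id, Category.id_comp])
      (by show (g ≫ e.hom) ≫ e.inv = 𝟙 K ≫ g; simp)
      (by
        show (e.inv ≫ h) ≫ (𝟙 L)⟦(1 : ℤ)⟧' = e.inv ≫ h
        rw [CategoryTheory.Functor.map_id, Category.comp_id]))
  refine ⟨L, G, f, g ≫ e.hom, e.inv ≫ h, mem', ⟨?_⟩, fun i hi => ?_, hLz⟩
  · have : IsIso ((DerivedCategory.homologyFunctor C b).map g) :=
      isIso_mor₂ _ mem b (hLz b le_rfl) (hLz (b + 1) (by lia))
    exact (homSingle b G).symm ≪≫ (DerivedCategory.homologyFunctor C b).mapIso e.symm ≪≫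
      (asIso ((DerivedCategory.homologyFunctor C b).map g)).symm
  · have : IsIso ((DerivedCategory.homologyFunctor C i).map f) :=
      isIso_mor₁ _ mem i (hYz (i - 1) (by lia)) (hYz i hi)
    exact ⟨asIso ((DerivedCategory.homologyFunctor C i).map f)⟩

end Pool.Agent.H4.AU
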