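import Pool.Agent.H85.AU.Targets

/-!
Module X16 of the board au_modules: extensions of two classes.
-/

open CategoryTheory CategoryTheory.Limits
open Pool.Agent.H85.AU

universe w v u

namespace Pool.Agent.H4.AU

/-- a class of objects described by a finite datum up to isomorphism -/
theorem finIso_of_data {C : Type u} [Category.{v} C] (𝒮 : C → Prop) (D : Type*) [Finite D]
    (R : C → D → Prop) (hR : ∀ E, 𝒮 E → ∃ d, R E d)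
    (hinj : ∀ E E' d, 𝒮 E → 𝒮 E' → R E d → R E' d → Nonempty (E ≅ E')) : FinIso 𝒮 := by
  classical
  refine ⟨Set.range (fun d : {d : D // ∃ E, 𝒮 E ∧ R E d} => d.2.choose), Set.finite_range _,
    ?_, ?_⟩
  · rintro _ ⟨d, rfl⟩
    exact d.2.choose_spec.1
  · intro A hA
    obtain ⟨d, hd⟩ := hR A hA
    have h : ∃ E, 𝒮 E ∧ R E d := ⟨A, hA, hd⟩
    exact ⟨h.choose, ⟨⟨d, h⟩, rfl⟩, hinj A _ d hA h.choose_spec.1 hd h.choose_spec.2⟩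

theorem pf_X16 : T_EXT.{w} → T_X16.{w} := by
  intro hEXT C _ _ _ 𝒮₁ 𝒮₃ 𝒮 h1 h3 hfin hE
  obtain ⟨T₁, hT₁, hP₁, hR₁⟩ := h1
  obtain ⟨T₃, hT₃, hP₃, hR₃⟩ := h3
  have := hT₁.to_subtype
  have := hT₃.to_subtype
  have : ∀ (A : T₁) (G : T₃), Finite (Abelian.Ext.{w} (G : C) (A : C) 1) :=
    fun A G => hfin _ _ (hP₃ _ G.2) (hP₁ _ A.2)
  refine finIso_of_data 𝒮 (Σ (A : T₁) (G : T₃), Abelian.Ext.{w} (G : C) (A : C) 1)
    (fun E d => ∃ (i : (d.1 : C) ⟶ E) (p : E ⟶ (d.2.1 : C)) (z : i ≫ p = 0)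
      (h : (ShortComplex.mk i p z).ShortExact), h.extClass.{w} = d.2.2) ?_ ?_
  · intro E hEE
    obtain ⟨S, hS, g1, g3, ⟨e⟩⟩ := hE E hEE
    obtain ⟨A, hA, ⟨a⟩⟩ := hR₁ _ g1
    obtain ⟨G, hG, ⟨g⟩⟩ := hR₃ _ g3
    have z : (a.inv ≫ S.f ≫ e.inv) ≫ (e.hom ≫ S.g ≫ g.hom) = 0 := by
      simp
    have h : (ShortComplex.mk (a.inv ≫ S.f ≫ e.inv) (e.hom ≫ S.g ≫ g.hom) z).ShortExact := by
      refine ShortComplex.shortExact_of_iso (S₁ := S) ?_ hS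
      exact ShortComplex.isoMk a e.symm g (by simp) (by simp)
    exact ⟨⟨⟨A, hA⟩, ⟨G, hG⟩, h.extClass⟩, _, _, z, h, rfl⟩
  · rintro E E' ⟨A, G, x⟩ - - ⟨i, p, z, h, hx⟩ ⟨i', p', z', h', hx'⟩
    exact hEXT C _ _ E E' i p i' p' z z' h h' (hx.trans hx'.symm)

end Pool.Agent.H4.AU
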